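import Mathlib

namespace Pool.Agent.Results.MP_07bc1a_al.Counter

@[ext] structure T where
  na : ℕ
  nc : ℕ
  s : ℤ
  t : ℤ
  l : ℕ
  h : na = 0 → nc = 0 → s = 1 ∧ t = l

instance : Mul T := ⟨fun x y => ⟨x.na + y.na, x.nc + y.nc, if x.nc = 0 then x.s * y.s else x.s,
  if x.nc = 0 then x.t + x.s * y.t else x.t, if y.nc = 0 then x.l + y.l else y.l, fun h1 h2 => by
    have a1 : x.nc = 0 := by omega
    have a2 : y.nc = 0 := by omega
    obtain ⟨b1, b2⟩ := x.h (by omega) a1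
    obtain ⟨b3, b4⟩ := y.h (by omega) a2
    simp [a1, a2, b1, b2, b3, b4]⟩⟩
instance : One T := ⟨⟨0, 0, 1, 0, 0, fun _ _ => ⟨rfl, rfl⟩⟩⟩

@[simp] theorem mul_na (x y : T) : (x * y).na = x.na + y.na := rfl
@[simp] theorem mul_nc (x y : T) : (x * y).nc = x.nc + y.nc := rfl
@[simp] theorem mul_s (x y : T) : (x * y).s = if x.nc = 0 then x.s * y.s else x.s := rfl
@[simp] theorem mul_t (x y : T) : (x * y).t = if x.nc = 0 then x.t + x.s * y.t else x.t := rfl
@[simp] theorem mul_l (x y : T) : (x * y).l = if y.nc = 0 then x.l + y.l else y.l := rfl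
@[simp] theorem one_na : (1 : T).na = 0 := rfl
@[simp] theorem one_nc : (1 : T).nc = 0 := rfl
@[simp] theorem one_s : (1 : T).s = 1 := rfl
@[simp] theorem one_t : (1 : T).t = 0 := rfl
@[simp] theorem one_l : (1 : T).l = 0 := rfl

instance : Monoid T where
  mul_assoc x y z := by
    ext
    · simp [add_assoc]
    · simp [add_assoc]
    · by_cases h1 : x.nc = 0 <;> by_cases h2 : y.nc = 0 <;> simp [h1, h2, mul_assoc]
    · by_cases h1 : x.nc = 0 <;> by_cases h2 : y.nc = 0 <;> simp [h1, h2] <;> ring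
    · by_cases h1 : z.nc = 0 <;> by_cases h2 : y.nc = 0 <;> simp [h1, h2, add_assoc]
  one_mul x := by ext <;> simp
  mul_one x := by ext <;> simp

def a : T := ⟨1, 0, -1, 0, 1, by simp⟩
def b : T := ⟨0, 0, 1, 1, 1, by simp⟩
def c : T := ⟨0, 1, 1, 0, 0, by simp⟩

def X (k : ℕ) : T := ⟨1, 1, -1, -k, 0, by simp⟩

theorem bpow (k : ℕ) : b ^ k = ⟨0, 0, 1, k, k, by simp⟩ := by
  induction k with
  | zero => rfl
  | succ k ih => rw [pow_succ, ih]; ext <;> simp [b]

theorem X_eq (k : ℕ) : X k = a * b ^ k * c := by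
  rw [bpow]; ext <;> simp [a, c, X]

theorem acyc (u v x : T) (e : u * x * v = x) : u = 1 ∧ v = 1 := by
  have e1 := congrArg T.na e
  have e2 := congrArg T.nc e
  have e4 := congrArg T.t e
  have e5 := congrArg T.l e
  simp only [mul_na, mul_nc] at e1 e2
  have a1 : u.nc = 0 := by omega
  have a2 : v.nc = 0 := by omega
  have a3 : u.na = 0 := by omega
  have a4 : v.na = 0 := by omega
  obtain ⟨b1, b2⟩ := u.h a3 a1
  obtain ⟨b3, b4⟩ := v.h a4 a2
  have : u.l = 0 ∧ v.l = 0 := by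
    by_cases hx : x.nc = 0
    · simp [a1, a2, hx] at e5; omega
    · simp [a1, a2, hx, b1] at e4 e5; omega
  constructor
  · ext <;> simp [a1, a3, b1, b2, this.1]
  · ext <;> simp [a2, a4, b3, b4, this.2]

theorem strict (k : ℕ) (u v : T) : X (k + 1) ≠ u * X k * v := by
  intro e
  have e1 := congrArg T.na e
  have e2 := congrArg T.nc e
  have e4 := congrArg T.t e
  simp only [mul_na, mul_nc, X] at e1 e2
  have a1 : u.nc = 0 := by omega
  obtain ⟨b1, b2⟩ := u.h (by omega) a1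
  simp only [mul_nc, mul_t, a1, X, b1, b2] at e4
  simp at e4 <;> omega

def S : Submonoid T := Submonoid.closure {a, b, c}

theorem ha : a ∈ S := Submonoid.subset_closure (by simp)
theorem hb : b ∈ S := Submonoid.subset_closure (by simp)
theorem hc : c ∈ S := Submonoid.subset_closure (by simp)

theorem result : ∃ (H : Type) (_ : Monoid H), Monoid.FG H ∧
    (∀ u v x : H, (¬ IsUnit u ∨ ¬ IsUnit v) → u * x * v ≠ x) ∧
    ∃ x : ℕ → H, ∀ k, {z | ∃ p q, z = p * x k * q} ⊂ {z | ∃ p q, z = p * x (k + 1) * q} := by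
  refine ⟨S, inferInstance, ?_, fun u v x h e => ?_,
    fun k => ⟨X k, X_eq k ▸ mul_mem (mul_mem ha (pow_mem hb k)) hc⟩, fun k => ⟨?_, fun h => ?_⟩⟩
  · classical exact (Monoid.fg_iff_submonoid_fg S).2 ⟨{a, b, c}, by simp [S]⟩
  · obtain ⟨h1, h2⟩ := acyc u.1 v.1 x.1 (congrArg Subtype.val e)
    have h3 : u = 1 := Subtype.ext h1
    have h4 : v = 1 := Subtype.ext h2
    simp [h3, h4] at h
  · rintro _ ⟨p, q, rfl⟩
    refine ⟨p * ⟨b, hb⟩, q, Subtype.ext ?_⟩
    have : X k = b * X (k + 1) := by ext <;> simp [b, X]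
    simp only [Submonoid.coe_mul]
    rw [this]; simp only [mul_assoc]
  · obtain ⟨p, q, e⟩ := h ⟨1, 1, (by rw [one_mul, mul_one])⟩
    exact strict k p.1 q.1 (congrArg Subtype.val e)

end Pool.Agent.Results.MP_07bc1a_al.Counter
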